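import Mathlib
import Pool.Agent.R448.TW.Split

/-!
# Project TC: balanced orientations of graphs
-/

set_option autoImplicit false

namespace Pool.Agent.N887.TCBAL

open Finset

theorem ncard_eq {V : Type} [Fintype V] [DecidableEq V] (H : SimpleGraph V) [DecidableRel H.Adj]
    (v : V) : (H.neighborSet v).ncard = ∑ u, (if H.Adj v u then 1 else 0) := by
  rw [Finset.sum_boole, Nat.cast_id, ← Set.ncard_coe_finset]
  congr 1
  ext u
  simp

theorem sum_even {V : Type} [Fintype V] [DecidableEq V] (H : SimpleGraph V) [DecidableRel H.Adj] :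
    Even (∑ v, (H.neighborSet v).ncard) := by
  have h1 : ∀ v, (H.neighborSet v).ncard = H.degree v := by
    intro v
    rw [← H.card_neighborSet_eq_degree v, ← Nat.card_eq_fintype_card, Nat.card_coe_set_eq]
  rw [Finset.sum_congr rfl fun v _ => h1 v, H.sum_degrees_eq_twice_card_edges]
  exact even_two_mul _

/-- Balanced orientations. -/
theorem bal {V : Type} [Fintype V] (H : SimpleGraph V) :
    ∃ y : V → V → ℤ, (∀ u v, y u v = - y v u) ∧ (∀ u v, ¬ H.Adj u v → y u v = 0) ∧
      (∀ u v, H.Adj u v → y u v = 1 ∨ y u v = -1) ∧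
      ∀ v, (Even (H.neighborSet v).ncard → ∑ u, y v u = 0) ∧ |∑ u, y v u| ≤ 1 := by
  classical
  let dg : V → ℕ := fun v => (H.neighborSet v).ncard
  let T : Option V → Option V → ℕ := fun a b => match a, b with
    | some u, some v => if H.Adj u v then 1 else 0
    | some u, none => dg u % 2
    | none, some v => dg v % 2
    | none, none => 0
  have hT1 : ∀ u v, T (some u) (some v) = if H.Adj u v then 1 else 0 := fun _ _ => rfl
  have hT2 : ∀ u, T (some u) none = dg u % 2 := fun _ => rfl
  have hT3 : ∀ u, T none (some u) = dg u % 2 := fun _ => rfl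
  have hT4 : T none none = 0 := rfl
  have hs : ∀ b b', T b b' = T b' b := by
    rintro (_ | u) (_ | v)
    · rfl
    · rfl
    · rfl
    · rw [hT1, hT1, H.adj_comm]
  have hd : ∀ b, Even (T b b) := by
    rintro (_ | u)
    · rw [hT4]
      exact Even.zero
    · rw [hT1, if_neg (H.loopless.irrefl u)]
      exact Even.zero
  have hr : ∀ b, Even (∑ b', T b b') := by
    rintro (_ | u)
    · rw [Fintype.sum_option, hT4, zero_add]
      simp only [hT3]
      have h1 : ∑ v, dg v % 2 + 2 * ∑ v, dg v / 2 = ∑ v, dg v := by
        rw [Finset.mul_sum, ← Finset.sum_add_distrib]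
        exact Finset.sum_congr rfl fun v _ => Nat.mod_add_div _ _
      have h2 : Even (∑ v, dg v) := sum_even H
      rw [← h1, Nat.even_add] at h2
      exact h2.2 (even_two_mul _)
    · rw [Fintype.sum_option, hT2]
      simp only [hT1]
      have h1 : ∑ v, (if H.Adj u v then 1 else 0) = dg u := (ncard_eq H u).symm
      rw [h1, Nat.even_iff]
      omega
  obtain ⟨D, hD1, hD2, hD3⟩ := Pool.Agent.R448.TW.half T hs hd (fun b => (∑ b', T b b') / 2)
    (fun b => (Nat.two_mul_div_two_of_even (hr b)).symm)
  have hsum : ∀ v, ∑ u, ((D (some v) (some u) : ℤ) - D (some u) (some v)) =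
      (D none (some v) : ℤ) - D (some v) none := by
    intro v
    have h2 := hD2 (some v)
    have h3 := hD3 (some v)
    rw [Fintype.sum_option] at h2 h3
    have h4 : ((D (some v) none : ℤ) + ∑ u, (D (some v) (some u) : ℤ)) =
        (D none (some v) : ℤ) + ∑ u, (D (some u) (some v) : ℤ) := by
      exact_mod_cast h2.trans h3.symm
    rw [Finset.sum_sub_distrib]
    linarith
  have hadd : ∀ v, D none (some v) + D (some v) none = dg v % 2 := fun v => hD1 none (some v)
  refine ⟨fun u v => (D (some u) (some v) : ℤ) - D (some v) (some u), fun u v => by ring,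
    fun u v h => ?_, fun u v h => ?_, fun v => ⟨fun h => ?_, ?_⟩⟩
  · have h1 := hD1 (some u) (some v)
    rw [hT1, if_neg h] at h1
    change (D (some u) (some v) : ℤ) - D (some v) (some u) = 0
    omega
  · have h1 := hD1 (some u) (some v)
    rw [hT1, if_pos h] at h1
    change (D (some u) (some v) : ℤ) - D (some v) (some u) = 1 ∨
      (D (some u) (some v) : ℤ) - D (some v) (some u) = -1
    omega
  · rw [hsum]
    have h1 := hadd v
    have h2 : dg v % 2 = 0 := Nat.even_iff.1 h
    omega
  · rw [hsum, abs_le]
    have h1 := hadd v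
    constructor
    · omega
    · omega

end Pool.Agent.N887.TCBAL
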