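import Pool.Agent.N208.BT.Stm2

set_option autoImplicit false

/-!
# Project BT (helper208), part C

The Lie algebra of the Hodge group commutes with the complex structure on the orthogonal complement
of `V₀` (for an abelian variety of Harris-Taylor type).
-/

open Module Matrix

noncomputable section

namespace Pool.Agent.N887.BTC

open Pool.Agent.Y102 Pool.Agent.Y102.AbVar Pool.Agent.W516.DR Pool.Agent.H204R3.GP
  Pool.Agent.W516.KC Pool.Agent.H204R3.SP Pool.Agent.TH119.MX Pool.Agent.R917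
  Pool.Agent.N208.AM Pool.Agent.N208.AD Pool.Agent.N208.BT

variable {g : ℕ} {A : AbVar g} {z : Module.End ℚ A.H1} {al : ℝ}

/-- An endomorphism of the abelian variety is complex linear. -/
theorem EA_smul {P : Module.End ℚ A.H1} (hP : P ∈ A.EA) (c : ℂ) (u : Fin g → ℂ) :
    A.ext P (c • u) = c • A.ext P u :=
  CR_complex A.endAlg (Submodule.subset_span ⟨P, hP, rfl⟩) c u

/-- The real extension of a skew endomorphism is skew for the Riemann form. -/
theorem E_skew {X : Module.End ℚ A.H1} (hX : IsSkew A.om X) (u v : Fin g → ℂ) :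
    A.E (A.ext X u) v = -A.E u (A.ext X v) := by
  have h2 : A.E.comp (A.ext X) = -(A.E.flip.comp (A.ext X)).flip := by
    refine A.ext_per fun u => A.ext_per fun v => ?_
    change A.E (A.ext X (A.per u)) (A.per v) = -A.E (A.per u) (A.ext X (A.per v))
    rw [A.ext_apply, A.ext_apply, ← A.om_coe, ← A.om_coe, ← Rat.cast_neg]
    congr 1
    linear_combination hX u v
  exact congrArg (fun F : (Fin g → ℂ) →ₗ[ℝ] (Fin g → ℂ) →ₗ[ℝ] ℝ => F u v) h2

/-- `z` is skew for the positive form. -/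
theorem PF_skew (h : HT A z al) (u v : Fin g → ℂ) :
    A.PF (A.ext z u) v = -A.PF u (A.ext z v) := by
  rw [A.PF_apply, A.PF_apply, E_skew h.skew, EA_smul h.mem]

/-- The complex structure is skew for the positive form. -/
theorem PF_I (u v : Fin g → ℂ) : A.PF (Complex.I • u) v = -A.PF u (Complex.I • v) := by
  rw [A.PF_apply, A.PF_apply, (A.E_I u v).1, smul_smul, Complex.I_mul_I, neg_one_smul, map_neg,
    neg_neg]

/-- The real span of the Lie algebra commutes with `z`. -/
theorem comm_EA {P : Module.End ℚ A.H1} (hP : P ∈ A.EA) {X : Module.End ℝ (Fin g → ℂ)}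
    (hX : X ∈ spE A (A.NA : Set (Module.End ℚ A.H1))) (u : Fin g → ℂ) :
    X (A.ext P u) = A.ext P (X u) := by
  have h1 : X * A.ext P = A.ext P * X := by
    induction hX using Submodule.span_induction with
    | mem Y hY =>
      obtain ⟨W, hW, rfl⟩ := hY
      rw [← Pool.Agent.N208.AD.ext_mul, ← Pool.Agent.N208.AD.ext_mul, A.NA_comm hW hP]
    | zero => rw [zero_mul, mul_zero]
    | add a b _ _ ha hb => rw [add_mul, mul_add, ha, hb]
    | smul c a _ ha => rw [smul_mul_assoc, mul_smul_comm, ha]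
  exact LinearMap.congr_fun h1 u

theorem mem_V0 {y : Fin g → ℂ} : y ∈ V0 A z al ↔ A.ext z (A.ext z y) + (al ^ 2) • y = 0 := by
  unfold V0
  rw [LinearMap.mem_ker, LinearMap.add_apply, Module.End.mul_apply, LinearMap.smul_apply,
    Module.End.one_apply]

theorem V0_I (h : HT A z al) {y : Fin g → ℂ} (hy : y ∈ V0 A z al) (c : ℂ) :
    c • y ∈ V0 A z al := by
  rw [mem_V0] at hy ⊢
  rw [EA_smul h.mem, EA_smul h.mem, smul_comm, ← smul_add, hy, smul_zero]

theorem V0_NA (h : HT A z al) {X : Module.End ℝ (Fin g → ℂ)}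
    (hX : X ∈ spE A (A.NA : Set (Module.End ℚ A.H1))) {y : Fin g → ℂ} (hy : y ∈ V0 A z al) :
    X y ∈ V0 A z al := by
  rw [mem_V0] at hy ⊢
  rw [← comm_EA h.mem hX, ← comm_EA h.mem hX, ← map_smul, ← map_add, hy, map_zero]

theorem V1_NA (h : HT A z al) {X : Module.End ℝ (Fin g → ℂ)}
    (hX : X ∈ spE A (A.NA : Set (Module.End ℚ A.H1))) {x : Fin g → ℂ} (hx : x ∈ V1 A z al) :
    X x ∈ V1 A z al := by
  intro y hy
  rw [adj_spE hX, th_eq, neg_neg, Module.End.mul_apply, Module.End.mul_apply, AbVar.JJ_apply,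
    AbVar.JJ_apply]
  exact hx _ (V0_I h (V0_NA h hX (V0_I h hy _)) _)

theorem V1_smul (h : HT A z al) {x : Fin g → ℂ} (hx : x ∈ V1 A z al) (c : ℂ) :
    c • x ∈ V1 A z al := by
  have h3 : c • x = c.re • x + c.im • (Complex.I • x) := by
    conv_lhs => rw [← Complex.re_add_im c]
    rw [add_smul, mul_smul]
    rfl
  rw [h3]
  refine Submodule.add_mem _ (Submodule.smul_mem _ _ hx) (Submodule.smul_mem _ _ ?_)
  intro y hy
  rw [PF_I, hx _ (V0_I h hy _), neg_zero]

theorem Eig.smul (h : HT A z al) {b : ℝ} {x : Fin g → ℂ} (hx : Eig A z b x) (c : ℂ) :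
    Eig A z b (c • x) := by
  unfold Eig at *
  rw [EA_smul h.mem, hx, smul_comm]

theorem Eig.sq {b : ℝ} {x : Fin g → ℂ} (h : HT A z al) (hx : Eig A z b x) :
    A.ext z (A.ext z x) = -((b ^ 2) • x) := by
  unfold Eig at hx
  rw [hx, EA_smul h.mem, hx, smul_smul]
  have h1 : ((b : ℂ) * Complex.I) * ((b : ℂ) * Complex.I) = -((b ^ 2 : ℝ) : ℂ) := by
    push_cast
    linear_combination (b : ℂ) ^ 2 * Complex.I_mul_I
  rw [h1, neg_smul]
  rfl

/-- Eigenvectors for the other eigenvalues. -/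
theorem key (h : HT A z al) {X : Module.End ℝ (Fin g → ℂ)}
    (hX : X ∈ spE A (A.NA : Set (Module.End ℚ A.H1))) {b : ℝ} (h1 : b ≠ al) (h2 : b ≠ -al)
    {y : Fin g → ℂ} (hy : Eig A z b y) : X (Complex.I • y) = Complex.I • X y := by
  by_cases hy0 : y = 0
  · rw [hy0, smul_zero, map_zero, smul_zero]
  have hb : b ≠ 0 := by
    rintro rfl
    apply hy0
    refine h.other 0 h1 h2 ⟨y, hy0, hy⟩ y ?_
    rw [neg_zero]
    exact hy
  have e1 : A.ext z (X y) = b • X (Complex.I • y) := by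
    rw [← comm_EA h.mem hX, hy, mul_smul, ← map_smul]
    rfl
  have e2 : A.ext z (X (Complex.I • y)) = -(b • X y) := by
    rw [← comm_EA h.mem hX, EA_smul h.mem, hy, smul_smul]
    have h3 : Complex.I * ((b : ℂ) * Complex.I) = -(b : ℂ) := by
      linear_combination (b : ℂ) * Complex.I_mul_I
    rw [h3, neg_smul, map_neg, ← map_smul]
    rfl
  have e3 : Eig A z (-b) (X y + Complex.I • X (Complex.I • y)) := by
    unfold Eig
    rw [map_add, EA_smul h.mem, e1, e2]
    have h4 : b • X (Complex.I • y) = (b : ℂ) • X (Complex.I • y) := rfl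
    have h5 : b • X y = (b : ℂ) • X y := rfl
    rw [h4, h5]
    generalize X (Complex.I • y) = w'
    generalize X y = w
    ext i
    simp only [Pi.add_apply, Pi.smul_apply, Pi.neg_apply, smul_eq_mul, Complex.ofReal_neg]
    linear_combination (b : ℂ) * w' i * Complex.I_mul_I
  have e4 := h.other b h1 h2 ⟨y, hy0, hy⟩ _ e3
  have e5 : X y = -(Complex.I • X (Complex.I • y)) := eq_neg_of_add_eq_zero_left e4
  rw [e5, smul_neg, smul_smul, Complex.I_mul_I, neg_one_smul, neg_neg]

/-- The eigenvectors for the other eigenvalues are in `V₁`. -/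
theorem mem_V1 (h : HT A z al) {b : ℝ} (h1 : b ≠ al) (h2 : b ≠ -al) {y : Fin g → ℂ}
    (hy : Eig A z b y) : y ∈ V1 A z al := by
  intro x hx
  rw [mem_V0] at hx
  have e1 : A.PF (A.ext z (A.ext z y)) x = A.PF y (A.ext z (A.ext z x)) := by
    rw [PF_skew h, PF_skew h, neg_neg]
  rw [Eig.sq h hy, eq_neg_of_add_eq_zero_left hx, map_neg, map_neg, LinearMap.neg_apply,
    map_smul, map_smul, LinearMap.smul_apply, neg_inj, smul_eq_mul, smul_eq_mul, ← sub_eq_zero,
    ← sub_mul] at e1
  rcases mul_eq_zero.1 e1 with e2 | e2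
  · exfalso
    have e3 : (b - al) * (b + al) = 0 := by linear_combination e2
    rcases mul_eq_zero.1 e3 with e4 | e4
    · exact h1 (sub_eq_zero.1 e4)
    · exact h2 (eq_neg_of_add_eq_zero_left e4)
  · exact e2

theorem mem_V0_of_Eig (h : HT A z al) {b : ℝ} (h1 : b = al ∨ b = -al) {y : Fin g → ℂ}
    (hy : Eig A z b y) : y ∈ V0 A z al := by
  rw [mem_V0, Eig.sq h hy]
  rcases h1 with rfl | rfl
  · rw [neg_add_cancel]
  · rw [neg_sq, neg_add_cancel]

/-- **BT/C.** -/
theorem main : S_C := by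
  intro g A z al h X hX x hx
  refine ⟨V1_NA h hX hx, ?_⟩
  classical
  let P : (Fin g → ℂ) →ₗ[ℂ] (Fin g → ℂ) :=
    { toFun := fun u => Complex.I • A.ext z u
      map_add' := fun u v => by rw [map_add, smul_add]
      map_smul' := fun c u => by rw [EA_smul h.mem, RingHom.id_apply, smul_comm] }
  have hP : ∀ u, P u = Complex.I • A.ext z u := fun u => rfl
  obtain ⟨e, r, he⟩ := A.exists_eigenbasis (n := 1) (fun _ => P) (fun _ _ => rfl) (by
    intro _ u v
    rw [hP, hP, (A.E_I _ _).2, E_skew h.skew, EA_smul h.mem, neg_neg])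
  have hE : ∀ k, Eig A z (-(r 0 k)) (e k) := by
    intro k
    have h1 := he 0 k
    change P (e k) = _ at h1
    rw [hP] at h1
    have h2 : Complex.I • (Complex.I • A.ext z (e k)) = Complex.I • ((r 0 k : ℂ) • e k) := by
      rw [h1]
    rw [smul_smul, Complex.I_mul_I, neg_one_smul, smul_smul] at h2
    unfold Eig
    rw [neg_eq_iff_eq_neg.1 h2, ← neg_smul]
    congr 1
    push_cast
    ring
  let S : Finset (Fin g) := Finset.univ.filter fun k => -(r 0 k) = al ∨ -(r 0 k) = -al
  have hsum : x = ∑ k ∈ S, e.repr x k • e k + ∑ k ∈ Sᶜ, e.repr x k • e k := by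
    rw [Finset.sum_add_sum_compl]
    exact (e.sum_repr x).symm
  have hne : ∀ k ∈ Sᶜ, -(r 0 k) ≠ al ∧ -(r 0 k) ≠ -al := by
    intro k hk
    rw [Finset.mem_compl, Finset.mem_filter] at hk
    push Not at hk
    exact hk (Finset.mem_univ _)
  have h1 : ∑ k ∈ Sᶜ, e.repr x k • e k ∈ V1 A z al := by
    refine Submodule.sum_mem _ fun k hk => V1_smul h ?_ _
    exact mem_V1 h (hne k hk).1 (hne k hk).2 (hE k)
  have h0 : ∑ k ∈ S, e.repr x k • e k ∈ V0 A z al := by
    refine Submodule.sum_mem _ fun k hk => V0_I h ?_ _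
    exact mem_V0_of_Eig h (Finset.mem_filter.1 hk).2 (hE k)
  have h2 : ∑ k ∈ S, e.repr x k • e k = 0 := by
    have h3 : ∑ k ∈ S, e.repr x k • e k = x - ∑ k ∈ Sᶜ, e.repr x k • e k :=
      eq_sub_of_add_eq hsum.symm
    have h4 : ∑ k ∈ S, e.repr x k • e k ∈ V1 A z al := by
      rw [h3]
      exact Submodule.sub_mem _ hx h1
    by_contra hcon
    have h5 := A.PF_pos hcon
    rw [h4 _ h0] at h5
    exact lt_irrefl _ h5
  rw [h2, zero_add] at hsum
  rw [hsum, Finset.smul_sum, map_sum, map_sum, Finset.smul_sum]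
  refine Finset.sum_congr rfl fun k hk => ?_
  exact key h hX (hne k hk).1 (hne k hk).2 (Eig.smul h (hE k) _)

end Pool.Agent.N887.BTC

end
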