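import Pool.Agent.N502.FR.Stm

/-!
# FR/SQS (subtask 9396 of helper502): sum of inverse squares
-/

set_option autoImplicit false

namespace Pool.Agent.N887.FR_SQS

open Finset

theorem main : Pool.Agent.N502.FR.S_SQS := by
  intro A y hy hA
  have hsub : A ⊆ Ioo ⌊y⌋₊ (A.sup id + 1) := by
    intro a ha
    rw [mem_Ioo]
    refine ⟨(Nat.floor_lt (by linarith)).2 (hA a ha), ?_⟩
    have : a ≤ A.sup id := le_sup (f := id) ha
    omega
  have h1 : ∑ a ∈ A, (1 / (a : ℝ)) ^ 2 ≤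
      ∑ a ∈ Ioo ⌊y⌋₊ (A.sup id + 1), ((a : ℝ) ^ 2)⁻¹ := by
    calc ∑ a ∈ A, (1 / (a : ℝ)) ^ 2 = ∑ a ∈ A, ((a : ℝ) ^ 2)⁻¹ :=
          sum_congr rfl fun a _ => by rw [one_div, inv_pow]
      _ ≤ _ := sum_le_sum_of_subset_of_nonneg hsub fun a _ _ => by positivity
  refine h1.trans ((sum_Ioo_inv_sq_le _ _).trans ?_)
  have h2 := Nat.lt_floor_add_one y
  exact div_le_div_of_nonneg_left (by norm_num) (by linarith) h2.le

end Pool.Agent.N887.FR_SQS
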