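import Pool.Agent.N699.AO.Stm

/-! Project AO, leaf WEY1: Weyl differencing (helper887). -/

set_option autoImplicit false

namespace Pool.Agent.N887.AO

open Finset Pool.Agent.N699.AO

theorem ee_add (x y : ℝ) : ee (x + y) = ee x * ee y := by
  unfold ee
  rw [← Complex.exp_add]
  congr 1
  push_cast
  ring

theorem norm_ee (x : ℝ) : ‖ee x‖ = 1 := by
  unfold ee
  have h : (2 * Real.pi * x * Complex.I : ℂ) = ((2 * Real.pi * x : ℝ) : ℂ) * Complex.I := by
    push_cast
    ring
  rw [h, Complex.norm_exp_ofReal_mul_I]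

theorem conj_ee (x : ℝ) : (starRingEnd ℂ) (ee x) = ee (-x) := by
  unfold ee
  rw [← Complex.exp_conj, map_mul, map_mul, map_mul, Complex.conj_I, Complex.conj_ofReal,
    Complex.conj_ofReal, map_ofNat]
  congr 1
  push_cast
  ring

theorem ee_nat_mul (n : ℕ) (x : ℝ) : ee (n * x) = ee x ^ n := by
  unfold ee
  rw [← Complex.exp_nat_mul]
  congr 1
  push_cast
  ring

theorem norm_ee_sub_one (x : ℝ) : 4 * |x - round x| ≤ ‖ee x - 1‖ := by
  have h1 : ee x = Complex.exp (Complex.I * ((2 * Real.pi * x : ℝ) : ℂ)) := by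
    unfold ee
    congr 1
    push_cast
    ring
  rw [h1, Complex.norm_exp_I_mul_ofReal_sub_one, norm_mul, Real.norm_eq_abs, Real.norm_eq_abs,
    abs_of_pos (by norm_num : (0 : ℝ) < 2)]
  have h2 : |Real.sin (2 * Real.pi * x / 2)| = |Real.sin (Real.pi * (x - round x))| := by
    have e : Real.pi * (x - round x) = 2 * Real.pi * x / 2 - (round x : ℤ) * Real.pi := by ring
    rw [e, Real.sin_sub_int_mul_pi, abs_mul, abs_zpow, abs_neg, abs_one, one_zpow, one_mul]
  rw [h2]
  have h3 : |Real.pi * (x - round x)| ≤ Real.pi / 2 := by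
    rw [abs_mul, abs_of_pos Real.pi_pos]
    have := abs_sub_round x
    have hp := Real.pi_pos
    nlinarith
  have h4 := Real.mul_abs_le_abs_sin h3
  rw [abs_mul, abs_of_pos Real.pi_pos] at h4
  have h5 : 2 / Real.pi * (Real.pi * |x - round x|) = 2 * |x - round x| := by
    field_simp
  rw [h5] at h4
  linarith

theorem mm_nonneg (L : ℕ) (x : ℝ) : 0 ≤ mm L x := by
  unfold mm
  split_ifs
  · positivity
  · positivity

theorem geo (L m : ℕ) (hm : m ≤ L) (x : ℝ) : ‖∑ i ∈ range m, ee x ^ i‖ ≤ mm L x := by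
  unfold mm
  split_ifs with h
  · refine (norm_sum_le _ _).trans ?_
    have h1 : ∀ i ∈ range m, ‖ee x ^ i‖ = 1 := by
      intro i _
      rw [norm_pow, norm_ee, one_pow]
    rw [sum_congr rfl h1, sum_const, card_range, nsmul_eq_mul, mul_one]
    exact_mod_cast hm
  · push Not at h
    have hd : 0 < |x - round x| := by
      rcases (abs_nonneg (x - round x)).lt_or_eq with h1 | h1
      · exact h1
      · rw [← h1, zero_mul] at h
        exact absurd h (by norm_num)
    have h2 := norm_ee_sub_one x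
    have h3 : 0 < ‖ee x - 1‖ := lt_of_lt_of_le (by positivity) h2
    have h4 : ee x ≠ 1 := by
      intro h5
      rw [h5, sub_self, norm_zero] at h3
      exact lt_irrefl _ h3
    rw [geom_sum_eq h4, norm_div, div_le_div_iff₀ h3 (by positivity)]
    have h6 : ‖ee x ^ m - 1‖ ≤ 2 := by
      refine (norm_sub_le _ _).trans ?_
      rw [norm_pow, norm_ee, one_pow, norm_one]
      norm_num
    nlinarith [norm_nonneg (ee x ^ m - 1)]

theorem reidx (F : ℕ → ℕ → ℂ) (n : ℕ) : ∑ j ∈ range n, ∑ i ∈ range j, F j i =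
    ∑ h ∈ range n, ∑ i ∈ range (n - 1 - h), F (i + (h + 1)) i := by
  induction n with
  | zero => simp
  | succ n ih =>
    rw [sum_range_succ, ih]
    have h1 : ∑ h ∈ range (n + 1), ∑ i ∈ range (n + 1 - 1 - h), F (i + (h + 1)) i =
        ∑ h ∈ range n, ∑ i ∈ range (n - h), F (i + (h + 1)) i := by
      rw [sum_range_succ, Nat.add_sub_cancel, Nat.sub_self, range_zero, sum_empty, add_zero]
    rw [h1]
    have h2 : ∀ h ∈ range n, ∑ i ∈ range (n - h), F (i + (h + 1)) i =
        ∑ i ∈ range (n - 1 - h), F (i + (h + 1)) i + F n (n - 1 - h) := by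
      intro h hh
      rw [mem_range] at hh
      have e : n - h = (n - 1 - h) + 1 := by omega
      rw [e, sum_range_succ]
      congr 2
      omega
    rw [sum_congr rfl h2, sum_add_distrib]
    congr 1
    exact (sum_range_reflect (fun i => F n i) n).symm

theorem norm_sq_sum (g : ℕ → ℂ) (n : ℕ) : ‖∑ i ∈ range n, g i‖ ^ 2 =
    ∑ i ∈ range n, ‖g i‖ ^ 2 +
      2 * (∑ j ∈ range n, ∑ i ∈ range j, g j * (starRingEnd ℂ) (g i)).re := by
  induction n with
  | zero => simp
  | succ n ih =>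
    rw [sum_range_succ, sum_range_succ, sum_range_succ, Complex.add_re, ← Complex.normSq_eq_norm_sq,
      Complex.normSq_add, Complex.normSq_eq_norm_sq, Complex.normSq_eq_norm_sq, ih]
    have e : (∑ i ∈ range n, g n * (starRingEnd ℂ) (g i)).re =
        ((∑ i ∈ range n, g i) * (starRingEnd ℂ) (g n)).re := by
      rw [← mul_sum, ← map_sum]
      have := Complex.conj_re (g n * (starRingEnd ℂ) (∑ i ∈ range n, g i))
      rw [map_mul, Complex.conj_conj] at this
      rw [← this, mul_comm]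
    rw [e]
    ring

theorem weyl (g : ℕ → ℂ) (n : ℕ) (hg : ∀ i, ‖g i‖ = 1) : ‖∑ i ∈ range n, g i‖ ^ 2 ≤
    n + 2 * ∑ h ∈ range n, ‖∑ i ∈ range (n - 1 - h), g (i + (h + 1)) * (starRingEnd ℂ) (g i)‖ := by
  rw [norm_sq_sum, reidx (fun j i => g j * (starRingEnd ℂ) (g i))]
  have h1 : ∑ i ∈ range n, ‖g i‖ ^ 2 = n := by
    simp [hg]
  rw [h1]
  gcongr
  exact (Complex.re_le_norm _).trans (norm_sum_le _ _)

theorem t_WEY1 : Pool.Agent.N699.AO.WEY1 := by
  intro L A B ω hBL α
  let g : ℕ → ℂ := fun i => ee ((((A + 1 + i : ℕ) : ℝ) ^ 2 + ω * ((A + 1 + i : ℕ) : ℝ)) * α)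
  have h1 : EW ω A B α = ∑ i ∈ range (B - A), g i := by
    unfold EW
    have e : Ioc A B = Ico (A + 1) (B + 1) := by
      ext s
      simp only [mem_Ioc, mem_Ico]
      omega
    rw [e, sum_Ico_eq_sum_range]
    have e2 : B + 1 - (A + 1) = B - A := by omega
    rw [e2]
  rw [h1]
  refine (weyl g (B - A) (fun i => norm_ee _)).trans ?_
  have hn : B - A ≤ L := by omega
  have h2 : ∀ h ∈ range (B - A), ‖∑ i ∈ range (B - A - 1 - h),
      g (i + (h + 1)) * (starRingEnd ℂ) (g i)‖ ≤ mm L (((2 * (h + 1) : ℕ) : ℝ) * α) := by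
    intro h _
    have h3 : ∀ i ∈ range (B - A - 1 - h), g (i + (h + 1)) * (starRingEnd ℂ) (g i) =
        ee ((2 * (h + 1) * (A + 1) + (h + 1) ^ 2 + ω * (h + 1)) * α) *
          ee (((2 * (h + 1) : ℕ) : ℝ) * α) ^ i := by
      intro i _
      rw [← ee_nat_mul]
      change ee _ * (starRingEnd ℂ) (ee _) = _
      rw [conj_ee, ← ee_add, ← ee_add]
      congr 1
      push_cast
      ring
    rw [sum_congr rfl h3, ← mul_sum, norm_mul, norm_ee, one_mul]
    exact geo L _ (by omega) _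
  have h4 : ∑ h ∈ range (B - A), mm L (((2 * (h + 1) : ℕ) : ℝ) * α) ≤
      ∑ u ∈ Icc 1 (2 * L), mm L (u * α) := by
    have h5 : ∑ h ∈ range (B - A), mm L (((2 * (h + 1) : ℕ) : ℝ) * α) =
        ∑ u ∈ (range (B - A)).image (fun h : ℕ => (2 * (h + 1) : ℕ)), mm L ((u : ℝ) * α) := by
      rw [sum_image]
      intro a _ b _ hab
      simp only at hab
      omega
    rw [h5]
    refine sum_le_sum_of_subset_of_nonneg ?_ (fun u _ _ => mm_nonneg _ _)
    intro u hu
    rw [mem_image] at hu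
    obtain ⟨h, hh, rfl⟩ := hu
    rw [mem_range] at hh
    rw [mem_Icc]
    omega
  have h6 := (sum_le_sum h2).trans h4
  have h7 : ((B - A : ℕ) : ℝ) ≤ L := by exact_mod_cast hn
  linarith

end Pool.Agent.N887.AO
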