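import Pool.Agent.N795.LN.Stm
import Pool.Agent.N73.STdom

/-!
# Random stirring: the strength of additional rates (project LN of helper795, task STAR, helper887)
-/

set_option autoImplicit false
set_option linter.unusedSectionVars false

namespace Pool.Agent.N795.LN

open Finset Equiv
open Pool.Agent.W805.LR (len cnt)
open Pool.Agent.TH268.PD (law PJ)

namespace H887Star

open Pool.Agent.N795.ST.H73Dom

variable {V : Type} [Fintype V] [DecidableEq V]

/-- a linear operator on functions of tuples -/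
noncomputable def BB (c : V → V → ℝ) (r : ℝ) {k : ℕ} (f : (Fin k → V) → ℝ) (z : Fin k → V) : ℝ :=
  ∑ x, ∑ y, c x y * f (fun i => swap x y (z i)) + r * f z

lemma BB_mono {c : V → V → ℝ} {r : ℝ} (hc : ∀ x y, 0 ≤ c x y) (hr : 0 ≤ r) {k : ℕ}
    {f g : (Fin k → V) → ℝ} (h : ∀ z, f z ≤ g z) (z : Fin k → V) : BB c r f z ≤ BB c r g z := by
  unfold BB
  refine add_le_add (sum_le_sum fun x _ => sum_le_sum fun y _ => ?_) ?_
  · exact mul_le_mul_of_nonneg_left (h _) (hc x y)
  · exact mul_le_mul_of_nonneg_left (h _) hr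

lemma BB_lin (c : V → V → ℝ) (r : ℝ) {k : ℕ} (f g : (Fin k → V) → ℝ) (a b : ℝ) (z : Fin k → V) :
    BB c r (fun z => a * f z + b * g z) z = a * BB c r f z + b * BB c r g z := by
  unfold BB
  have h : ∑ x, ∑ y, c x y * (a * f (fun i => swap x y (z i)) + b * g (fun i => swap x y (z i))) =
      a * ∑ x, ∑ y, c x y * f (fun i => swap x y (z i)) +
        b * ∑ x, ∑ y, c x y * g (fun i => swap x y (z i)) := by
    simp only [mul_sum, ← sum_add_distrib]
    exact sum_congr rfl fun x _ => sum_congr rfl fun y _ => by ring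
  rw [h]
  ring

/-- normalised iterates -/
noncomputable def AA (J : V → V → ℝ) (R : ℝ) {k : ℕ} (w : Fin k → V) (n : ℕ) (z : Fin k → V) : ℝ :=
  R ^ n * ((PJ J R)^[n] (ind z w)) 1

lemma AA_succ (J : V → V → ℝ) {R : ℝ} (hR : R ≠ 0) {k : ℕ} (w : Fin k → V) (n : ℕ)
    (z : Fin k → V) : AA J R w (n + 1) z =
      BB (fun x y => J x y / 2) (R - ∑ x, ∑ y, J x y / 2) (AA J R w n) z := by
  unfold AA BB
  rw [iter_ind]
  have h : ∑ x, ∑ y, J x y / 2 * (R ^ n * ((PJ J R)^[n] (ind (fun i => swap x y (z i)) w)) 1) =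
      R ^ n * ∑ x, ∑ y, J x y / 2 * ((PJ J R)^[n] (ind (fun i => swap x y (z i)) w)) 1 := by
    simp only [mul_sum]
    exact sum_congr rfl fun x _ => sum_congr rfl fun y _ => by ring
  rw [h, pow_succ]
  field_simp

/-- the pairs which do not touch `z` do not change it -/
lemma BB_touch (U : V → V → ℝ) (r : ℝ) {k : ℕ} (f : (Fin k → V) → ℝ) (z : Fin k → V) :
    BB (fun x y => U x y / 2) (r - ∑ x, ∑ y, U x y / 2) f z =
      BB (fun x y => open Classical in if (∃ i, z i = x) ∨ (∃ i, z i = y) then U x y / 2 else 0)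
        (r - ∑ x, ∑ y, (open Classical in
          if (∃ i, z i = x) ∨ (∃ i, z i = y) then U x y / 2 else 0)) f z := by
  classical
  unfold BB
  have h1 : ∑ x, ∑ y, U x y / 2 * f (fun i => swap x y (z i)) =
      ∑ x, ∑ y, (if (∃ i, z i = x) ∨ (∃ i, z i = y) then U x y / 2 else 0) *
        f (fun i => swap x y (z i)) +
      (∑ x, ∑ y, (if (∃ i, z i = x) ∨ (∃ i, z i = y) then 0 else U x y / 2)) * f z := by
    rw [sum_mul, ← sum_add_distrib]
    refine sum_congr rfl fun x _ => ?_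
    rw [sum_mul, ← sum_add_distrib]
    refine sum_congr rfl fun y _ => ?_
    split_ifs with hxy
    · rw [zero_mul, add_zero]
    · push Not at hxy
      have f4 : (fun i => swap x y (z i)) = z := by
        funext i
        exact swap_apply_of_ne_of_ne (hxy.1 i) (hxy.2 i)
      rw [f4, zero_mul, zero_add]
  have h2 : ∑ x, ∑ y, U x y / 2 =
      ∑ x, ∑ y, (if (∃ i, z i = x) ∨ (∃ i, z i = y) then U x y / 2 else 0) +
      ∑ x, ∑ y, (if (∃ i, z i = x) ∨ (∃ i, z i = y) then 0 else U x y / 2) := by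
    rw [← sum_add_distrib]
    refine sum_congr rfl fun x _ => ?_
    rw [← sum_add_distrib]
    refine sum_congr rfl fun y _ => ?_
    split_ifs <;> simp
  rw [h1, h2]
  ring

/-- the recursion -/
lemma AA_rec (J U : V → V → ℝ) (R' ζ s : ℝ) (hR : R' + ζ * s ≠ 0) {k : ℕ} (w : Fin k → V) (n : ℕ)
    (z : Fin k → V) : AA (fun x y => J x y + ζ * U x y) (R' + ζ * s) w (n + 1) z =
      BB (fun x y => J x y / 2) (R' - ∑ x, ∑ y, J x y / 2)
        (AA (fun x y => J x y + ζ * U x y) (R' + ζ * s) w n) z +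
      ζ * BB (fun x y => U x y / 2) (s - ∑ x, ∑ y, U x y / 2)
        (AA (fun x y => J x y + ζ * U x y) (R' + ζ * s) w n) z := by
  rw [AA_succ _ hR]
  generalize AA (fun x y => J x y + ζ * U x y) (R' + ζ * s) w n = f
  unfold BB
  have h1 : ∑ x, ∑ y, (J x y + ζ * U x y) / 2 * f (fun i => swap x y (z i)) =
      ∑ x, ∑ y, J x y / 2 * f (fun i => swap x y (z i)) +
        ζ * ∑ x, ∑ y, U x y / 2 * f (fun i => swap x y (z i)) := by
    simp only [mul_sum, ← sum_add_distrib]
    exact sum_congr rfl fun x _ => sum_congr rfl fun y _ => by ring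
  have h2 : ∑ x, ∑ y, (J x y + ζ * U x y) / 2 =
      ∑ x, ∑ y, J x y / 2 + ζ * ∑ x, ∑ y, U x y / 2 := by
    simp only [mul_sum, ← sum_add_distrib]
    exact sum_congr rfl fun x _ => sum_congr rfl fun y _ => by ring
  rw [h1, h2]
  ring

/-- the inequality for the iterates -/
lemma iter_star {J U : V → V → ℝ} {κ R' ρ : ℝ} (hJ : ∀ x y, 0 ≤ J x y) (hU : ∀ x y, 0 ≤ U x y)
    (hκ : 0 ≤ κ) (hρ : 0 < ρ) (hrow : ∀ x, ∑ y, (U x y + U y x) / 2 ≤ κ) {k : ℕ} (hR' : 0 < R')
    (hR : ∑ x, ∑ y, J x y / 2 ≤ R') (w : Fin k → V) (n : ℕ) :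
    ∀ (lam : ℝ), 0 < lam → ∀ z : Fin k → V,
      2 * AA (fun x y => J x y + 1 * U x y) (R' + 1 * (k * κ)) w n z ≤
        lam * AA (fun x y => J x y + ρ * U x y) (R' + ρ * (k * κ)) w n z +
        lam⁻¹ * AA (fun x y => J x y + ρ⁻¹ * U x y) (R' + ρ⁻¹ * (k * κ)) w n z := by
  classical
  have hs : 0 ≤ (k : ℝ) * κ := by positivity
  have hne : ∀ ζ : ℝ, 0 < ζ → R' + ζ * (k * κ) ≠ 0 := fun ζ hζ => by positivity
  induction n with
  | zero =>
    intro lam hlam z
    unfold AA
    simp only [pow_zero, one_mul, Function.iterate_zero, id_eq]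
    have h1 := ind_nonneg z w (1 : Perm V)
    have h2 : 2 ≤ lam + lam⁻¹ := by
      have h3 : lam * lam⁻¹ = 1 := mul_inv_cancel₀ hlam.ne'
      have h4 : 0 < lam⁻¹ := inv_pos.2 hlam
      nlinarith [sq_nonneg (lam - lam⁻¹), sq_nonneg (lam + lam⁻¹)]
    nlinarith
  | succ n ih =>
    intro lam hlam z
    have hρ' : 0 < ρ⁻¹ := inv_pos.2 hρ
    rw [AA_rec J U R' 1 _ (hne 1 one_pos), AA_rec J U R' ρ _ (hne ρ hρ),
      AA_rec J U R' ρ⁻¹ _ (hne _ hρ')]
    set f1 := AA (fun x y => J x y + 1 * U x y) (R' + 1 * (k * κ)) w n with hf1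
    set f2 := AA (fun x y => J x y + ρ * U x y) (R' + ρ * (k * κ)) w n with hf2
    set f3 := AA (fun x y => J x y + ρ⁻¹ * U x y) (R' + ρ⁻¹ * (k * κ)) w n with hf3
    have a1 := BB_mono (c := fun x y => J x y / 2) (r := R' - ∑ x, ∑ y, J x y / 2)
      (fun x y => div_nonneg (hJ x y) two_pos.le) (by linarith)
      (f := fun z => 2 * f1 z + 0 * f1 z) (g := fun z => lam * f2 z + lam⁻¹ * f3 z)
      (fun z => by
        have := ih lam hlam z
        rw [zero_mul, add_zero]
        exact this) z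
    have htouch := touch hU hκ hrow z
    have a2 := BB_mono (c := fun x y => if (∃ i, z i = x) ∨ (∃ i, z i = y) then U x y / 2 else 0)
      (r := k * κ - ∑ x, ∑ y, (if (∃ i, z i = x) ∨ (∃ i, z i = y) then U x y / 2 else 0))
      (fun x y => by
        split_ifs
        · exact div_nonneg (hU x y) two_pos.le
        · exact le_rfl) (by linarith)
      (f := fun z => 2 * f1 z + 0 * f1 z)
      (g := fun z => (lam * ρ) * f2 z + (lam * ρ)⁻¹ * f3 z)
      (fun z => by
        have := ih (lam * ρ) (by positivity) z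
        rw [zero_mul, add_zero]
        exact this) z
    rw [← BB_touch, ← BB_touch] at a2
    rw [BB_lin, BB_lin] at a1 a2
    rw [mul_inv] at a2
    linarith

/-- the inequality for tuples -/
lemma law_star {J U : V → V → ℝ} {κ t ρ : ℝ} (hJ : ∀ x y, 0 ≤ J x y) (hU : ∀ x y, 0 ≤ U x y)
    (ht : 0 ≤ t) (hκ : 0 ≤ κ) (hρ : 0 < ρ) (hrow : ∀ x, ∑ y, (U x y + U y x) / 2 ≤ κ) {k : ℕ}
    (z w : Fin k → V) :
    2 * ∑ g, law (fun x y => J x y + 1 * U x y) t g * ind z w g ≤
      Real.exp (t * k * κ * (ρ + ρ⁻¹ - 2) / 2) *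
        (∑ g, law (fun x y => J x y + ρ * U x y) t g * ind z w g +
          ∑ g, law (fun x y => J x y + ρ⁻¹ * U x y) t g * ind z w g) := by
  have hJ1 : 0 ≤ ∑ x, ∑ y, J x y / 2 := sum_nonneg fun x _ => sum_nonneg fun y _ =>
    div_nonneg (hJ x y) two_pos.le
  set R' : ℝ := ∑ x, ∑ y, J x y / 2 + 1 with hR'
  have hR'pos : 0 < R' := by linarith
  have hs : 0 ≤ (k : ℝ) * κ := by positivity
  have hsum : ∀ ζ : ℝ, 0 < ζ → HasSum (fun n : ℕ => t ^ n / (n.factorial : ℝ) *
      AA (fun x y => J x y + ζ * U x y) (R' + ζ * (k * κ)) w n z)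
      (Real.exp (t * (R' + ζ * (k * κ))) *
        ∑ g, law (fun x y => J x y + ζ * U x y) t g * ind z w g) := by
    intro ζ hζ
    have hRpos : 0 < R' + ζ * (k * κ) := by positivity
    have h1 := (Pool.Agent.TH268.PD.unif_law V (fun x y => J x y + ζ * U x y) t
      (R' + ζ * (k * κ)) (ind z w) hRpos).mul_left (Real.exp (t * (R' + ζ * (k * κ))))
    have hfun : (fun n : ℕ => t ^ n / (n.factorial : ℝ) *
        AA (fun x y => J x y + ζ * U x y) (R' + ζ * (k * κ)) w n z) =
        (fun i : ℕ => Real.exp (t * (R' + ζ * (k * κ))) *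
        (Real.exp (-(t * (R' + ζ * (k * κ)))) * (t * (R' + ζ * (k * κ))) ^ i /
          (i.factorial : ℝ) *
          (PJ (fun x y => J x y + ζ * U x y) (R' + ζ * (k * κ)))^[i] (ind z w) 1)) := ?_
    · rw [hfun]; exact h1
    funext n
    unfold AA
    rw [mul_pow]
    have h2 : Real.exp (t * (R' + ζ * (k * κ))) * Real.exp (-(t * (R' + ζ * (k * κ)))) = 1 := by
      rw [← Real.exp_add, add_neg_cancel, Real.exp_zero]
    linear_combination (-(t ^ n * (R' + ζ * (k * κ)) ^ n / (n.factorial : ℝ))) * (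
      ((PJ (fun x y => J x y + ζ * U x y) (R' + ζ * (k * κ)))^[n] (ind z w)) 1) * h2
  have hρ' : 0 < ρ⁻¹ := inv_pos.2 hρ
  set lam : ℝ := Real.exp (t * (k * κ) * (ρ⁻¹ - ρ) / 2) with hlam
  have hlam0 : 0 < lam := Real.exp_pos _
  have s1 := (hsum 1 one_pos).mul_left 2
  have s2 := ((hsum ρ hρ).mul_left lam).add ((hsum ρ⁻¹ hρ').mul_left lam⁻¹)
  have h := hasSum_le (fun n => by
    have key := iter_star hJ hU hκ hρ hrow hR'pos (by linarith) w n lam hlam0 z
    have c0 : 0 ≤ t ^ n / (n.factorial : ℝ) := by positivity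
    have h3 := mul_le_mul_of_nonneg_left key c0
    linarith) s1 s2
  set L1 := ∑ g, law (fun x y => J x y + 1 * U x y) t g * ind z w g
  set L2 := ∑ g, law (fun x y => J x y + ρ * U x y) t g * ind z w g
  set L3 := ∑ g, law (fun x y => J x y + ρ⁻¹ * U x y) t g * ind z w g
  have e2 : lam * Real.exp (t * (R' + ρ * (k * κ))) =
      Real.exp (t * (R' + 1 * (k * κ))) * Real.exp (t * k * κ * (ρ + ρ⁻¹ - 2) / 2) := by
    rw [hlam, ← Real.exp_add, ← Real.exp_add]
    congr 1
    ring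
  have e3 : lam⁻¹ * Real.exp (t * (R' + ρ⁻¹ * (k * κ))) =
      Real.exp (t * (R' + 1 * (k * κ))) * Real.exp (t * k * κ * (ρ + ρ⁻¹ - 2) / 2) := by
    rw [hlam, ← Real.exp_neg, ← Real.exp_add, ← Real.exp_add]
    congr 1
    ring
  refine le_of_mul_le_mul_left ?_ (Real.exp_pos (t * (R' + 1 * (k * κ))))
  calc Real.exp (t * (R' + 1 * (k * κ))) * (2 * L1) =
      2 * (Real.exp (t * (R' + 1 * (k * κ))) * L1) := by ring
    _ ≤ lam * (Real.exp (t * (R' + ρ * (k * κ))) * L2) +
        lam⁻¹ * (Real.exp (t * (R' + ρ⁻¹ * (k * κ))) * L3) := h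
    _ = (lam * Real.exp (t * (R' + ρ * (k * κ)))) * L2 +
        (lam⁻¹ * Real.exp (t * (R' + ρ⁻¹ * (k * κ)))) * L3 := by ring
    _ = _ := by
      rw [e2, e3]
      ring

end H887Star

open Pool.Agent.N795.ST.H73Dom H887Star in
/-- **Star.** -/
theorem star : Star := by
  intro V _ _ J U t κ ρ v k hJ hU ht hκ hρ hrow
  classical
  unfold prk
  rcases k with _ | k
  · have h0 : ∀ g : Perm V, ¬ len g v = ((0 : ℕ) : ℝ) := by
      intro g h
      rw [len_eq] at h
      have := per_pos g v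
      have h' : Function.minimalPeriod g v = 0 := by exact_mod_cast h
      omega
    simp only [h0, if_false, mul_zero, sum_const_zero, add_zero]
    exact le_rfl
  · simp only [len_ind]
    simp only [mul_sum]
    rw [sum_comm, sum_comm (s := univ) (t := (univ : Finset (Fin (k + 1) → V)).filter
      fun z => Function.Injective z ∧ z 0 = v) (f := fun g z =>
        law (fun x y => J x y + ρ * U x y) t g * ind z (fun i => z (i + 1)) g),
      sum_comm (s := univ) (t := (univ : Finset (Fin (k + 1) → V)).filter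
      fun z => Function.Injective z ∧ z 0 = v) (f := fun g z =>
        law (fun x y => J x y + ρ⁻¹ * U x y) t g * ind z (fun i => z (i + 1)) g),
      ← sum_add_distrib, mul_sum]
    refine sum_le_sum fun z _ => ?_
    have := law_star hJ hU ht hκ hρ hrow z (fun i => z (i + 1))
    simp only [one_mul] at this
    rwa [mul_sum] at this

end Pool.Agent.N795.LN
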